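import Mathlib
import Pool.Agent.H.MP_a37635_nt.Main

namespace Pool.Agent.Results.MP_a37635_nt.Full

def Preper (x : AlgebraicClosure ℚ) : Prop :=
  (Set.range fun n : ℕ => (fun z : AlgebraicClosure ℚ => z ^ 2 + z)^[n] x).Finite

theorem result : ∀ a b c : AlgebraicClosure ℚ, Preper a → Preper b → Preper c →
    a + b + c ≠ 1 := by
  intro a b c ha hb hc h
  let φ : AlgebraicClosure ℚ →+* ℂ :=
    (@IsAlgClosed.lift ℂ _ _ ℚ _ _ (AlgebraicClosure ℚ) _ _ (AlgebraicClosure.instAlgebra ℚ) _ _ _
      (AlgebraicClosure.isAlgebraic ℚ)).toRingHom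
  have key : ∀ x, Preper x → (φ x).re < 1 / 3 := by
    intro x hx
    apply Pool.Agent.H.MP_a37635_nt.re_lt'
    refine (hx.image φ).subset ?_
    rintro _ ⟨n, rfl⟩
    refine ⟨_, ⟨n, rfl⟩, ?_⟩
    induction n with
    | zero => rfl
    | succ n ih =>
      simp only [Function.iterate_succ_apply'] at ih ⊢
      rw [← ih]; simp
  have := congrArg (fun x => (φ x).re) h
  simp only [map_add, map_one, Complex.add_re, Complex.one_re] at this
  linarith [key a ha, key b hb, key c hc]

end Pool.Agent.Results.MP_a37635_nt.Full
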